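import Pool.Agent.Helper40.LS.Basic

/-!
LS-F3: the invariant is preserved.
-/

set_option autoImplicit false
open Classical Filter Topology

namespace Pool.Agent.Helper40.LS

theorem nb_pm {n : ℕ} {M : Gr n} (h : IsPM M) (c : Fin n) : ∃ s, nb M c = {s} := by
  obtain ⟨s, hs⟩ := mem_cols.1 (h.2.1 c)
  refine ⟨s, ?_⟩
  ext u
  rw [mem_nb, Finset.mem_singleton]
  constructor
  · intro hu
    have := h.1.1 _ hu _ hs rfl
    exact (Prod.mk.inj this).2
  · rintro rfl
    exact hs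

theorem IsPM.tr {n : ℕ} {M : Gr n} (h : IsPM M) : IsPM (tr M) :=
  ⟨h.1.tr, fun c => by rw [cols_tr]; exact h.2.2 c, fun s => by rw [syms_tr]; exact h.2.1 s⟩

/-- the used cells of a column inside the reserve after one more row -/
theorem count_step {n : ℕ} {U M R M0t : Gr n} {η : ℝ} {c : Fin n} {a a' b b' : ℕ}
    (hM : ∃ s, nb M c = {s})
    (hU : ((nb U c ∩ nb R c).card : ℝ) ≤ η / 2 * n + 1 + a + b) (ha : a ≤ a') (hb : b ≤ b')
    (h1 : ∀ s, (c, s) ∈ M0t → b + 1 ≤ b')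
    (h2 : ∀ s, (c, s) ∈ (M ∩ R) \ M0t → c ∈ hot R U η → a + 1 ≤ a') :
    ((nb (U ∪ M) c ∩ nb R c).card : ℝ) ≤ η / 2 * n + 1 + a' + b' := by
  obtain ⟨s, hs⟩ := hM
  have ha' : (a : ℝ) ≤ a' := by exact_mod_cast ha
  have hb' : (b : ℝ) ≤ b' := by exact_mod_cast hb
  have hsM : (c, s) ∈ M := by rw [← mem_nb, hs]; exact Finset.mem_singleton_self s
  by_cases hR : (c, s) ∈ R
  · have h3 : nb (U ∪ M) c ∩ nb R c ⊆ insert s (nb U c ∩ nb R c) := by
      intro u hu
      rw [Finset.mem_inter, nb_union, Finset.mem_union, hs, Finset.mem_singleton] at hu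
      rw [Finset.mem_insert, Finset.mem_inter]
      rcases hu with ⟨hu | hu, hu2⟩
      · exact Or.inr ⟨hu, hu2⟩
      · exact Or.inl hu
    have h4 : ((nb (U ∪ M) c ∩ nb R c).card : ℝ) ≤ (nb U c ∩ nb R c).card + 1 := by
      exact_mod_cast (Finset.card_le_card h3).trans (Finset.card_insert_le _ _)
    by_cases h0 : (c, s) ∈ M0t
    · have : (b : ℝ) + 1 ≤ b' := by exact_mod_cast h1 s h0
      linarith
    · by_cases hh : c ∈ hot R U η
      · have : (a : ℝ) + 1 ≤ a' := by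
          exact_mod_cast h2 s (Finset.mem_sdiff.2 ⟨Finset.mem_inter.2 ⟨hsM, hR⟩, h0⟩) hh
        linarith
      · have h5 : ((nb U c ∩ nb R c).card : ℝ) < η / 2 * n := by
          by_contra h6
          exact hh (Finset.mem_filter.2 ⟨Finset.mem_univ _, not_lt.1 h6⟩)
        have : (0 : ℝ) ≤ a' := Nat.cast_nonneg _
        have : (0 : ℝ) ≤ b' := Nat.cast_nonneg _
        linarith
  · have h3 : nb (U ∪ M) c ∩ nb R c ⊆ nb U c ∩ nb R c := by
      intro u hu
      rw [Finset.mem_inter, nb_union, Finset.mem_union, hs, Finset.mem_singleton] at hu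
      rw [Finset.mem_inter]
      rcases hu with ⟨hu | hu, hu2⟩
      · exact ⟨hu, hu2⟩
      · exact absurd (mem_nb.1 (hu ▸ hu2)) hR
    have h4 : ((nb (U ∪ M) c ∩ nb R c).card : ℝ) ≤ (nb U c ∩ nb R c).card := by
      exact_mod_cast Finset.card_le_card h3
    linarith

theorem reg_step {n t : ℕ} {U M : Gr n} {c : Fin n} (hM : ∃ s, nb M c = {s})
    (hU : (nb U c).card = t) (hd : Disjoint U M) : (nb (U ∪ M) c).card = t + 1 := by
  obtain ⟨s, hs⟩ := hM
  have hsM : (c, s) ∈ M := by rw [← mem_nb, hs]; exact Finset.mem_singleton_self s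
  rw [nb_union, Finset.card_union_of_disjoint, hU, hs, Finset.card_singleton]
  rw [hs, Finset.disjoint_singleton_right, mem_nb]
  exact fun h => (Finset.disjoint_left.1 hd) h hsM

theorem filter_step {n : ℕ} (p : Fin n → Prop) (t : Fin n)
    [DecidablePred fun j : Fin n => (j : ℕ) < t ∧ p j]
    [DecidablePred fun j : Fin n => (j : ℕ) < (t : ℕ) + 1 ∧ p j] :
    ((Finset.univ.filter fun j : Fin n => (j : ℕ) < t ∧ p j).card ≤
      (Finset.univ.filter fun j : Fin n => (j : ℕ) < (t : ℕ) + 1 ∧ p j).card) ∧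
    (p t → (Finset.univ.filter fun j : Fin n => (j : ℕ) < t ∧ p j).card + 1 ≤
      (Finset.univ.filter fun j : Fin n => (j : ℕ) < (t : ℕ) + 1 ∧ p j).card) := by
  constructor
  · refine Finset.card_le_card fun j hj => ?_
    rw [Finset.mem_filter] at hj ⊢
    exact ⟨hj.1, by omega, hj.2.2⟩
  · intro ht
    rw [← Finset.card_insert_of_notMem (s := Finset.univ.filter fun j : Fin n => (j : ℕ) < t ∧ p j)
      (a := t) (by simp)]
    refine Finset.card_le_card fun j hj => ?_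
    rw [Finset.mem_insert, Finset.mem_filter] at hj
    rw [Finset.mem_filter]
    rcases hj with rfl | hj
    · exact ⟨Finset.mem_univ _, by omega, ht⟩
    · exact ⟨hj.1, by omega, hj.2.2⟩

/-- LS-F3: the invariant is preserved -/
theorem inv_step {n : ℕ} {δ z0 h ζ l : ℝ} (hδ : 0 < δ) (hz0 : 0 < z0) {R : Gr n}
    {σ : Fin n → Stat n} {M0 : Fin n → Gr n} (hP : Pre σ M0 ζ) (t : Fin n) {s : St n}
    (hI : Inv δ z0 h R M0 t s) {x : Row n} {M : Gr n}
    (hM : RowOut R s.1 (allM M0) (M0 t) x.1 x.2.1 x.2.2 (act (M0 t)) (act' (M0 t)) h l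
      (4 * zz δ z0 n t * n) M) :
    Inv δ z0 h R M0 ((t : ℕ) + 1) (upd R M0 l t s x.1 M) := by
  have hn : (0 : ℝ) < n := by
    have := t.2
    exact_mod_cast (by omega : 0 < n)
  have hd : Disjoint s.1 M := by
    rw [Finset.disjoint_left]
    intro e he heM
    by_cases h0 : e ∈ M0 t
    · exact (Finset.disjoint_left.1 (hI.dis t le_rfl)) he h0
    · exact (Finset.disjoint_left.1 hM.disjU) (Finset.mem_sdiff.2 ⟨heM, h0⟩) he
  have hdt : Disjoint (tr s.1) (tr M) := by
    rw [Finset.disjoint_left]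
    intro e he heM
    rw [mem_tr'] at he heM
    exact (Finset.disjoint_left.1 hd) he heM
  refine ⟨?_, ?_, ?_, ?_, ?_, ?_⟩
  · intro c
    exact reg_step (nb_pm hM.pm c) (hI.reg c) hd
  · intro c
    show (nb (tr (s.1 ∪ M)) c).card = t + 1
    rw [tr_union]
    exact reg_step (nb_pm hM.pm.tr c) (hI.reg' c) hdt
  · show ((((s.1 ∪ M) ∩ R).card : ℕ) : ℝ) ≤ δ / 2 * zz δ z0 n ((t : ℕ) + 1) * n ^ 2
    have h1 : ((((s.1 ∪ M) ∩ R).card : ℕ) : ℝ) ≤ ((s.1 ∩ R).card : ℝ) + ((M ∩ R).card : ℝ) := by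
      rw [Finset.union_inter_distrib_right]
      exact_mod_cast Finset.card_union_le _ _
    have h2 := hI.use
    have h3 := hM.use
    have h4 : δ / 2 * zz δ z0 n ((t : ℕ) + 1) * n ^ 2 =
        δ / 2 * zz δ z0 n t * n ^ 2 + 4 * zz δ z0 n t * n := by
      unfold zz
      rw [pow_succ]
      field_simp
      ring
    rw [h4]
    linarith
  · intro c
    have hf := filter_step (fun j => c ∈ cols (M0 j)) t
    refine count_step (M0t := M0 t) (nb_pm hM.pm c) (hI.col c) ?_ hf.1 ?_ ?_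
    · exact Nat.le_add_right _ _
    · intro u hu
      exact hf.2 (mem_cols.2 ⟨u, hu⟩)
    · intro u hu hh
      have := hM.hotC _ hu hh
      show s.2.1 c + 1 ≤ s.2.1 c + _
      rw [if_pos this]
  · intro c
    have hf := filter_step (fun j => c ∈ syms (M0 j)) t
    show ((nb (tr (s.1 ∪ M)) c ∩ nb (tr R) c).card : ℝ) ≤ _
    rw [tr_union]
    refine count_step (M0t := tr (M0 t)) (nb_pm hM.pm.tr c) (hI.col' c) ?_ hf.1 ?_ ?_
    · exact Nat.le_add_right _ _
    · intro u hu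
      rw [mem_tr] at hu
      exact hf.2 (mem_syms.2 ⟨u, hu⟩)
    · intro u hu hh
      rw [← tr_inter, ← tr_sdiff, mem_tr] at hu
      have := hM.hotS _ hu hh
      show s.2.2 c + 1 ≤ s.2.2 c + _
      rw [if_pos this]
  · intro j hj
    show Disjoint (s.1 ∪ M) (M0 j)
    rw [Finset.disjoint_union_left]
    refine ⟨hI.dis j (by omega), ?_⟩
    rw [Finset.disjoint_left]
    intro e heM hej
    have htj : t ≠ j := by
      rintro rfl
      omega
    by_cases h0 : e ∈ M0 t
    · exact (Finset.disjoint_left.1 (hP.dis t j htj)) h0 hej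
    · exact (Finset.disjoint_left.1 hM.disjM) (Finset.mem_sdiff.2 ⟨heM, h0⟩)
        (Finset.mem_biUnion.2 ⟨j, Finset.mem_univ _, hej⟩)

end Pool.Agent.Helper40.LS
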