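import Pool.Agent.Helper43.LS.Zones

/-!
# Project LS, module LS-5: extension of the local conditions from the window
-/

set_option autoImplicit false
set_option linter.unusedSimpArgs false

namespace Pool.LS

/-- The state at `f` is the state at `f0`, and the two monomials are reduced at the same time. -/
structure Sim (lab : Mon → LLab) (mo : Mon → ℕ) (f0 f : Mon) : Prop where
  red : Red 2 2 f ↔ Red 2 2 f0
  lab : Red 2 2 f0 → lab f = lab f0
  mo : Red 2 2 f0 → mo f = mo f0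

theorem add_x1 (t v : Mon) : (x1 t).add v = x1 (t.add v) := by
  simp only [x1, Mon.add, Mon.mk.injEq, and_true]; omega

theorem add_x34 (t v : Mon) : (x34 t).add v = x34 (t.add v) := by
  simp only [x34, Mon.add, Mon.mk.injEq, and_true, true_and]; omega

theorem red_of_x1 {t : Mon} (h : Red 2 2 (x1 t)) : Red 2 2 t := by
  simp only [Red, x1] at *; omega

theorem red_of_x34 {t : Mon} (h : Red 2 2 (x34 t)) : Red 2 2 t := by
  simp only [Red, x34] at *; omega

/-- The local conditions are carried from `e0` to `e0.add v`. -/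
theorem loc_shift (lab : Mon → LLab) (mo : Mon → ℕ) (v e0 : Mon) (hr : Red 2 2 e0)
    (hF : ∀ k, mvF k (e0.add v) = (mvF k e0).map (fun f => f.add v))
    (hB : ∀ k, mvB k (e0.add v) = (mvB k e0).map (fun f => f.add v))
    (sE : Sim lab mo e0 (e0.add v))
    (sF : ∀ k f0, mvF k e0 = some f0 → Sim lab mo f0 (f0.add v))
    (sB : ∀ k f0, mvB k e0 = some f0 → Sim lab mo f0 (f0.add v))
    (s1 : Sim lab mo (x1 e0) ((x1 e0).add v))
    (s34 : Sim lab mo (x34 e0) ((x34 e0).add v))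
    (hrange : inRange (lab e0) e0 → inRange (lab e0) (e0.add v))
    (te : isTopA (lab e0) (e0.add v) ↔ isTopA (lab e0) e0)
    (be : isBotA (lab e0) (e0.add v) ↔ isBotA (lab e0) e0)
    (ht : ∀ t0, e0 = x1 t0 → Sim lab mo t0 (t0.add v) ∧
      (isTopA (lab t0) t0 → isTopA (lab t0) (t0.add v)))
    (hu : ∀ u0, e0 = x34 u0 → Sim lab mo u0 (u0.add v) ∧
      (isBotA (lab u0) u0 → isBotA (lab u0) (u0.add v)))
    (h4 : v.e4 = 0) (h : Loc lab mo e0) : Loc lab mo (e0.add v) := by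
  have hl : lab (e0.add v) = lab e0 := sE.lab hr
  have hm : mo (e0.add v) = mo e0 := sE.mo hr
  have hP : ∀ k, Pred mo k (e0.add v) ↔ Pred mo k e0 := by
    intro k
    constructor
    · rintro ⟨g, hg, hgr, hgm⟩
      rw [hB k] at hg
      cases hgo : mvB k e0 with
      | none => rw [hgo] at hg; simp at hg
      | some g0 =>
        rw [hgo] at hg
        simp only [Option.map_some, Option.some.injEq] at hg
        subst hg
        have S := sB k g0 hgo
        have r0 := S.red.1 hgr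
        exact ⟨g0, hgo, r0, by rw [← S.mo r0]; exact hgm⟩
    · rintro ⟨g0, hg, hgr, hgm⟩
      have S := sB k g0 hg
      exact ⟨g0.add v, by rw [hB k, hg]; rfl, S.red.2 hgr, by rw [S.mo hgr]; exact hgm⟩
  refine ⟨?_, ?_, ?_, ?_, ?_, ?_, ?_, ?_, ?_, ?_⟩
  · rw [hl]; exact hrange h.range
  · intro h0
    rw [hm] at h0
    obtain ⟨f0, h1, h2, h3, h4, h5, h6⟩ := h.step h0
    have S := sF _ f0 h1
    refine ⟨f0.add v, ?_, S.red.2 h2, ?_, ?_, ?_, ?_⟩
    · rw [hm, hF, h1]; rfl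
    · rw [S.lab h2, hl]; exact h3
    · rw [hl, te]; exact h4
    · rw [hl]; exact h5
    · rw [hl]; exact h6
  · intro h0
    rw [hm] at h0
    rw [hl, te]
    exact h.stop h0
  · intro h0
    rw [hl, be] at h0
    obtain ⟨k, hk⟩ := h.pred h0
    exact ⟨k, (hP k).2 hk⟩
  · intro k k' hk hk'
    exact h.predU k k' ((hP k).1 hk) ((hP k').1 hk')
  · intro h0 k hk
    rw [hl, be] at h0
    exact h.start h0 k ((hP k).1 hk)
  · intro h0
    rw [hl, te] at h0
    obtain ⟨h1, h2⟩ := h.top h0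
    rw [← add_x1]
    exact ⟨s1.red.2 h1, by rw [s1.lab h1]; exact h2⟩
  · intro h0
    rw [hl] at h0
    obtain ⟨t0, h1, h2⟩ := h.topOf h0
    obtain ⟨S, hT⟩ := ht t0 h1
    have r0 : Red 2 2 t0 := red_of_x1 (h1 ▸ hr)
    refine ⟨t0.add v, by rw [← add_x1, ← h1], ?_⟩
    rw [S.lab r0]
    rcases h2 with h2 | h2
    · exact Or.inl (hT h2)
    · exact Or.inr h2
  · intro h0
    rw [hl, be] at h0
    obtain ⟨h1, h2, h3⟩ := h.bot h0
    rw [← add_x34]
    exact ⟨by simp [Mon.add, h1, h4], s34.red.2 h2, by rw [s34.lab h2]; exact h3⟩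
  · intro h0
    rw [hl] at h0
    obtain ⟨u0, h1, h2⟩ := h.botOf h0
    obtain ⟨S, hT⟩ := hu u0 h1
    have r0 : Red 2 2 u0 := red_of_x34 (h1 ▸ hr)
    refine ⟨u0.add v, by rw [← add_x34, ← h1], ?_⟩
    rw [S.lab r0]
    rcases h2 with h2 | h2
    · exact Or.inl (hT h2)
    · exact Or.inr h2

/-- The moves commute with a shift if the coordinates concerned are positive. -/
theorem mvF_add (v e0 : Mon) (h1 : v.e1 = 0 ∨ 1 ≤ e0.e1) (h2 : v.e2 = 0 ∨ 1 ≤ e0.e2)
    (h3 : v.e3 = 0 ∨ 1 ≤ e0.e3) (h4 : v.e4 = 0 ∨ 1 ≤ e0.e4) (k : ℕ) :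
    mvF k (e0.add v) = (mvF k e0).map (fun f => f.add v) := by
  have i1 : (1 ≤ e0.e1 + v.e1) ↔ (1 ≤ e0.e1) := by omega
  have i2 : (1 ≤ e0.e2 + v.e2) ↔ (1 ≤ e0.e2) := by omega
  have i3 : (1 ≤ e0.e3 + v.e3) ↔ (1 ≤ e0.e3) := by omega
  have i4 : (1 ≤ e0.e4 + v.e4) ↔ (1 ≤ e0.e4) := by omega
  rcases k with _ | _ | _ | _ | _ | k
  · rfl
  · simp only [mvF, Mon.add, i1]
    split_ifs with a
    · simp only [Option.map_some, Option.some.injEq, Mon.mk.injEq, and_true, true_and]; omega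
    · rfl
  · simp only [mvF, Mon.add, i2]
    split_ifs with a
    · simp only [Option.map_some, Option.some.injEq, Mon.mk.injEq, and_true, true_and]; omega
    · rfl
  · simp only [mvF, Mon.add, i3]
    split_ifs with a
    · simp only [Option.map_some, Option.some.injEq, Mon.mk.injEq, and_true, true_and]; omega
    · rfl
  · simp only [mvF, Mon.add, i4]
    split_ifs with a
    · simp only [Option.map_some, Option.some.injEq, Mon.mk.injEq, and_true, true_and]; omega
    · rfl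
  · rfl

theorem mvB_add (v e0 : Mon) (h2 : v.e2 = 0 ∨ 1 ≤ e0.e2)
    (h3 : v.e3 = 0 ∨ 1 ≤ e0.e3) (h4 : v.e4 = 0 ∨ 1 ≤ e0.e4) (h5 : v.e5 = 0 ∨ 1 ≤ e0.e5) (k : ℕ) :
    mvB k (e0.add v) = (mvB k e0).map (fun f => f.add v) := by
  have i5 : (1 ≤ e0.e5 + v.e5) ↔ (1 ≤ e0.e5) := by omega
  have i2 : (1 ≤ e0.e2 + v.e2) ↔ (1 ≤ e0.e2) := by omega
  have i3 : (1 ≤ e0.e3 + v.e3) ↔ (1 ≤ e0.e3) := by omega
  have i4 : (1 ≤ e0.e4 + v.e4) ↔ (1 ≤ e0.e4) := by omega
  rcases k with _ | _ | _ | _ | _ | k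
  · rfl
  · simp only [mvB, Mon.add, i2]
    split_ifs with a
    · simp only [Option.map_some, Option.some.injEq, Mon.mk.injEq, and_true, true_and]; omega
    · rfl
  · simp only [mvB, Mon.add, i3]
    split_ifs with a
    · simp only [Option.map_some, Option.some.injEq, Mon.mk.injEq, and_true, true_and]; omega
    · rfl
  · simp only [mvB, Mon.add, i4]
    split_ifs with a
    · simp only [Option.map_some, Option.some.injEq, Mon.mk.injEq, and_true, true_and]; omega
    · rfl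
  · simp only [mvB, Mon.add, i5]
    split_ifs with a
    · simp only [Option.map_some, Option.some.injEq, Mon.mk.injEq, and_true, true_and]; omega
    · rfl
  · rfl

/-- The coordinates of a neighbour differ by at most one. -/
theorem mvF_near {k : ℕ} {e f : Mon} (h : mvF k e = some f) :
    (1 ≤ e.e1 ∧ f.e1 + 1 = e.e1 ∧ f.e2 = e.e2 + 1 ∧ f.e3 = e.e3 ∧ f.e4 = e.e4 ∧ f.e5 = e.e5) ∨
    (f.e1 = e.e1 ∧ f.e2 + 1 = e.e2 ∧ f.e3 = e.e3 + 1 ∧ f.e4 = e.e4 ∧ f.e5 = e.e5) ∨
    (f.e1 = e.e1 ∧ f.e2 = e.e2 ∧ f.e3 + 1 = e.e3 ∧ f.e4 = e.e4 + 1 ∧ f.e5 = e.e5) ∨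
    (f.e1 = e.e1 ∧ f.e2 = e.e2 ∧ f.e3 = e.e3 ∧ f.e4 + 1 = e.e4 ∧ f.e5 = e.e5 + 1) := by
  rcases k with _ | _ | _ | _ | _ | k
  · simp [mvF] at h
  · simp only [mvF] at h
    split_ifs at h with a
    simp only [Option.some.injEq] at h
    subst h
    left; dsimp; omega
  · simp only [mvF] at h
    split_ifs at h with a
    simp only [Option.some.injEq] at h
    subst h
    right; left; dsimp; omega
  · simp only [mvF] at h
    split_ifs at h with a
    simp only [Option.some.injEq] at h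
    subst h
    right; right; left; dsimp; omega
  · simp only [mvF] at h
    split_ifs at h with a
    simp only [Option.some.injEq] at h
    subst h
    right; right; right; dsimp; omega
  · simp [mvF] at h

theorem mvB_near {k : ℕ} {e f : Mon} (h : mvB k e = some f) :
    (f.e1 = e.e1 + 1 ∧ f.e2 + 1 = e.e2 ∧ f.e3 = e.e3 ∧ f.e4 = e.e4 ∧ f.e5 = e.e5) ∨
    (f.e1 = e.e1 ∧ f.e2 = e.e2 + 1 ∧ f.e3 + 1 = e.e3 ∧ f.e4 = e.e4 ∧ f.e5 = e.e5) ∨
    (f.e1 = e.e1 ∧ f.e2 = e.e2 ∧ f.e3 = e.e3 + 1 ∧ f.e4 + 1 = e.e4 ∧ f.e5 = e.e5) ∨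
    (f.e1 = e.e1 ∧ f.e2 = e.e2 ∧ f.e3 = e.e3 ∧ f.e4 = e.e4 + 1 ∧ f.e5 + 1 = e.e5) := by
  rcases k with _ | _ | _ | _ | _ | k
  · simp [mvB] at h
  · simp only [mvB] at h
    split_ifs at h with a
    simp only [Option.some.injEq] at h
    subst h
    left; dsimp; omega
  · simp only [mvB] at h
    split_ifs at h with a
    simp only [Option.some.injEq] at h
    subst h
    right; left; dsimp; omega
  · simp only [mvB] at h
    split_ifs at h with a
    simp only [Option.some.injEq] at h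
    subst h
    right; right; left; dsimp; omega
  · simp only [mvB] at h
    split_ifs at h with a
    simp only [Option.some.injEq] at h
    subst h
    right; right; right; dsimp; omega
  · simp [mvB] at h

/-- The neighbours of `e`. -/
def Near (e f : Mon) : Prop :=
  f = e ∨ (∃ k, mvF k e = some f) ∨ (∃ k, mvB k e = some f) ∨ f = x1 e ∨ f = x34 e ∨ e = x1 f ∨
    e = x34 f

/-- `f - e` in the coordinates. -/
def Off (e f : Mon) (a b c d g a' b' c' d' g' : ℕ) : Prop :=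
  f.e1 + a = e.e1 + a' ∧ f.e2 + b = e.e2 + b' ∧ f.e3 + c = e.e3 + c' ∧ f.e4 + d = e.e4 + d' ∧
    f.e5 + g = e.e5 + g'

theorem near_off {e f : Mon} (h : Near e f) :
    Off e f 0 0 0 0 0 0 0 0 0 0 ∨ Off e f 1 0 0 0 0 0 1 0 0 0 ∨ Off e f 0 1 0 0 0 0 0 1 0 0 ∨
    Off e f 0 0 1 0 0 0 0 0 1 0 ∨ Off e f 0 0 0 1 0 0 0 0 0 1 ∨ Off e f 0 1 0 0 0 1 0 0 0 0 ∨
    Off e f 0 0 1 0 0 0 1 0 0 0 ∨ Off e f 0 0 0 1 0 0 0 1 0 0 ∨ Off e f 0 0 0 0 1 0 0 0 1 0 ∨
    Off e f 0 0 0 0 0 1 0 0 0 0 ∨ Off e f 0 0 0 0 0 0 0 1 1 0 ∨ Off e f 1 0 0 0 0 0 0 0 0 0 ∨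
    Off e f 0 0 1 1 0 0 0 0 0 0 := by
  rcases h with h | ⟨k, h⟩ | ⟨k, h⟩ | h | h | h | h
  · subst h; left; exact ⟨rfl, rfl, rfl, rfl, rfl⟩
  · rcases mvF_near h with h | h | h | h
    · right; left; simp only [Off]; omega
    · right; right; left; simp only [Off]; omega
    · right; right; right; left; simp only [Off]; omega
    · right; right; right; right; left; simp only [Off]; omega
  · rcases mvB_near h with h | h | h | h
    · right; right; right; right; right; left; simp only [Off]; omega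
    · right; right; right; right; right; right; left; simp only [Off]; omega
    · right; right; right; right; right; right; right; left; simp only [Off]; omega
    · right; right; right; right; right; right; right; right; left; simp only [Off]; omega
  · subst h
    right; right; right; right; right; right; right; right; right; left
    exact ⟨rfl, rfl, rfl, rfl, rfl⟩
  · subst h
    right; right; right; right; right; right; right; right; right; right; left
    exact ⟨rfl, rfl, rfl, rfl, rfl⟩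
  · subst h
    right; right; right; right; right; right; right; right; right; right; right; left
    exact ⟨rfl, rfl, rfl, rfl, rfl⟩
  · subst h
    right; right; right; right; right; right; right; right; right; right; right; right
    exact ⟨rfl, rfl, rfl, rfl, rfl⟩

/-- The local conditions are carried over by the shift `v` in the zone `Z`. -/
theorem loc_zone (lab : Mon → LLab) (mo : Mon → ℕ) (v e0 : Mon) (Z : Mon → Prop)
    (hr : Red 2 2 e0) (h4 : v.e4 = 0) (hv : 1 ≤ deg v)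
    (hst : ∀ f, Red 2 2 f → Z f → lab (f.add v) = lab f ∧ mo (f.add v) = mo f)
    (hcore : ∀ f, Red 2 2 f → Z f → ZoneOK lab f → inRange (lab f) f →
      (isTopA (lab f) (f.add v) ↔ isTopA (lab f) f) ∧
      (isBotA (lab f) (f.add v) ↔ isBotA (lab f) f) ∧ inRange (lab f) (f.add v))
    (hred : ∀ f, Near e0 f → (Red 2 2 (f.add v) ↔ Red 2 2 f))
    (hz : ∀ f, Near e0 f → Red 2 2 f → Z f)
    (q1 : v.e1 = 0 ∨ 1 ≤ e0.e1) (q2 : v.e2 = 0 ∨ 1 ≤ e0.e2) (q3 : v.e3 = 0 ∨ 1 ≤ e0.e3)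
    (q5 : v.e5 = 0 ∨ 1 ≤ e0.e5)
    (ih : ∀ f, deg f < deg (e0.add v) → Red 2 2 f → Loc lab mo f ∧ ZoneOK lab f) :
    Loc lab mo (e0.add v) := by
  have hdv : deg (e0.add v) = deg e0 + deg v := by simp only [deg, Mon.add]; omega
  have hsim : ∀ f, Near e0 f → Sim lab mo f (f.add v) := by
    intro f hf
    exact ⟨hred f hf, fun hrf => (hst f hrf (hz f hf hrf)).1, fun hrf => (hst f hrf (hz f hf hrf)).2⟩
  obtain ⟨hL, hZ⟩ := ih e0 (by omega) hr
  obtain ⟨t1, t2, t3⟩ := hcore e0 hr (hz e0 (Or.inl rfl) hr) hZ hL.range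
  refine loc_shift lab mo v e0 hr (mvF_add v e0 q1 q2 q3 (Or.inl h4))
    (mvB_add v e0 q2 q3 (Or.inl h4) q5) (hsim _ (Or.inl rfl))
    (fun k f0 hf => hsim _ (Or.inr (Or.inl ⟨k, hf⟩)))
    (fun k f0 hf => hsim _ (Or.inr (Or.inr (Or.inl ⟨k, hf⟩))))
    (hsim _ (Or.inr (Or.inr (Or.inr (Or.inl rfl)))))
    (hsim _ (Or.inr (Or.inr (Or.inr (Or.inr (Or.inl rfl))))))
    (fun _ => t3) t1 t2 ?_ ?_ h4 hL
  · intro t0 ht0
    have hn : Near e0 t0 := Or.inr (Or.inr (Or.inr (Or.inr (Or.inr (Or.inl ht0)))))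
    have r0 : Red 2 2 t0 := red_of_x1 (ht0 ▸ hr)
    have hd0 : deg t0 < deg (e0.add v) := by
      rw [hdv, ht0]; simp only [deg, x1]; omega
    obtain ⟨hL0, hZ0⟩ := ih t0 hd0 r0
    exact ⟨hsim _ hn, (hcore t0 r0 (hz t0 hn r0) hZ0 hL0.range).1.2⟩
  · intro t0 ht0
    have hn : Near e0 t0 := Or.inr (Or.inr (Or.inr (Or.inr (Or.inr (Or.inr ht0)))))
    have r0 : Red 2 2 t0 := red_of_x34 (ht0 ▸ hr)
    have hd0 : deg t0 < deg (e0.add v) := by
      rw [hdv, ht0]; simp only [deg, x34]; omega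
    obtain ⟨hL0, hZ0⟩ := ih t0 hd0 r0
    exact ⟨hsim _ hn, (hcore t0 r0 (hz t0 hn r0) hZ0 hL0.range).2.1.2⟩

variable {lab : Mon → LLab} {mo : Mon → ℕ}

theorem core2 (f : Mon) (hz : z2 f) (hZ : ZoneOK lab f) (hR : inRange (lab f) f) :
      (isTopA (lab f) (f.add v2) ↔ isTopA (lab f) f) ∧
      (isBotA (lab f) (f.add v2) ↔ isBotA (lab f) f) ∧ inRange (lab f) (f.add v2) := by
  rcases hZ.ok2 hz with ⟨j, hj⟩ | ⟨c, hc, hn⟩
  · rw [hj] at hR ⊢; exact ⟨Iff.rfl, Iff.rfl, hR⟩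
  · rw [hc] at hR ⊢
    simp only [isTopA, isBotA, inRange, up, dn, deg, Mon.add, v2] at *
    omega

theorem core3 (f : Mon) (hz : z3 f) (hZ : ZoneOK lab f) (hR : inRange (lab f) f) :
      (isTopA (lab f) (f.add v3) ↔ isTopA (lab f) f) ∧
      (isBotA (lab f) (f.add v3) ↔ isBotA (lab f) f) ∧ inRange (lab f) (f.add v3) := by
  rcases hZ.ok3 hz with ⟨j, hj⟩ | ⟨c, hc, hn⟩
  · rw [hj] at hR ⊢; exact ⟨Iff.rfl, Iff.rfl, hR⟩
  · rw [hc] at hR ⊢
    simp only [isTopA, isBotA, inRange, up, dn, deg, Mon.add, v3] at *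
    omega

theorem coreE (f : Mon) (hz : zE f) (hZ : ZoneOK lab f) (hR : inRange (lab f) f) :
      (isTopA (lab f) (f.add vE) ↔ isTopA (lab f) f) ∧
      (isBotA (lab f) (f.add vE) ↔ isBotA (lab f) f) ∧ inRange (lab f) (f.add vE) := by
  obtain ⟨j, hj⟩ := hZ.okE hz
  rw [hj] at hR ⊢; exact ⟨Iff.rfl, Iff.rfl, hR⟩

theorem coreD (f : Mon) (hz : zD f) (hZ : ZoneOK lab f) (hR : inRange (lab f) f) :
      (isTopA (lab f) (f.add vD) ↔ isTopA (lab f) f) ∧
      (isBotA (lab f) (f.add vD) ↔ isBotA (lab f) f) ∧ inRange (lab f) (f.add vD) := by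
  obtain ⟨j, hj⟩ := hZ.okD hz
  rw [hj] at hR ⊢; exact ⟨Iff.rfl, Iff.rfl, hR⟩

theorem coreS (f : Mon) (hz : zS f) (hZ : ZoneOK lab f) (hR : inRange (lab f) f) :
      (isTopA (lab f) (f.add vS) ↔ isTopA (lab f) f) ∧
      (isBotA (lab f) (f.add vS) ↔ isBotA (lab f) f) ∧ inRange (lab f) (f.add vS) := by
  have h5 := hZ.okS hz
  cases hl : lab f with
  | A o =>
    rw [hl] at hR
    simp only [isTopA, isBotA, inRange, up, dn, Mon.add, vS] at *
    omega
  | L c => exact absurd hl (h5 c)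
  | B j => rw [hl] at hR; exact ⟨Iff.rfl, Iff.rfl, hR⟩
  | C j => rw [hl] at hR; exact ⟨Iff.rfl, Iff.rfl, hR⟩

theorem case2 (hi : Inv (fun e => (lab e, mo e))) (e0 : Mon) (h2 : 16 ≤ e0.e2)
    (hr : Red 2 2 (e0.add v2))
    (ih : ∀ f, deg f < deg (e0.add v2) → Red 2 2 f → Loc lab mo f ∧ ZoneOK lab f) :
    Loc lab mo (e0.add v2) ∧ ZoneOK lab (e0.add v2) := by
  have hr0 : Red 2 2 e0 := by simp only [Red, Mon.add, v2] at *; omega
  have h5 : e0.e5 ≤ 1 := by simp only [Red, Mon.add, v2] at *; omega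
  have hst : ∀ f, Red 2 2 f → z2 f → lab (f.add v2) = lab f ∧ mo (f.add v2) = mo f :=
    fun f a b => Prod.mk.inj (hi.inv2 f a b)
  have hz0 : z2 e0 := ⟨by omega, h5⟩
  obtain ⟨hL, hZ⟩ := ih e0 (by simp only [deg, Mon.add, v2]; omega) hr0
  constructor
  · refine loc_zone lab mo v2 e0 z2 hr0 rfl (by decide) hst (fun f _ a b c => core2 f a b c)
      ?_ ?_ (Or.inl rfl) (Or.inr (by omega)) (Or.inl rfl) (Or.inl rfl) ih
    · intro f hf
      rcases near_off hf with h | h | h | h | h | h | h | h | h | h | h | h | h <;>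
      simp only [Off] at h <;>
      simp only [Red, Mon.add, v2] <;> omega
    · intro f hf hrf
      rcases near_off hf with h | h | h | h | h | h | h | h | h | h | h | h | h <;>
      simp only [Off] at h <;>
      simp only [Red, z2] at * <;> omega
  · have hl : lab (e0.add v2) = lab e0 := (hst e0 hr0 hz0).1
    have hR := hL.range
    refine ⟨?_, ?_, ?_, ?_, ?_⟩
    · intro hz
      rw [hl]
      apply hZ.okE
      simp only [zE, Mon.add, v2] at *; omega
    · intro hz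
      rw [hl]
      apply hZ.okD
      simp only [zD, Mon.add, v2] at *; omega
    · intro hz
      rw [hl]
      rcases hZ.ok2 hz0 with h | ⟨c, hc, hn⟩
      · exact Or.inl h
      · refine Or.inr ⟨c, hc, ?_⟩
        rw [hc] at hR
        simp only [isTopA, inRange, up, dn, deg, Mon.add, v2] at *
        omega
    · intro hz
      rw [hl]
      have hz' : z3 e0 := by simp only [z3, Mon.add, v2] at *; omega
      rcases hZ.ok3 hz' with h | ⟨c, hc, hn⟩
      · exact Or.inl h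
      · refine Or.inr ⟨c, hc, ?_⟩
        rw [hc] at hR
        simp only [isBotA, inRange, up, dn, deg, Mon.add, v2] at *
        omega
    · intro hz
      exfalso
      simp only [zS, Mon.add, v2] at *; omega

theorem case3 (hi : Inv (fun e => (lab e, mo e))) (e0 : Mon) (h3 : 14 ≤ e0.e3)
    (hr : Red 2 2 (e0.add v3))
    (ih : ∀ f, deg f < deg (e0.add v3) → Red 2 2 f → Loc lab mo f ∧ ZoneOK lab f) :
    Loc lab mo (e0.add v3) ∧ ZoneOK lab (e0.add v3) := by
  have hr0 : Red 2 2 e0 := by simp only [Red, Mon.add, v3] at *; omega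
  have h1 : e0.e1 ≤ 1 := by simp only [Red, Mon.add, v3] at *; omega
  have hst : ∀ f, Red 2 2 f → z3 f → lab (f.add v3) = lab f ∧ mo (f.add v3) = mo f :=
    fun f a b => Prod.mk.inj (hi.inv3 f a b)
  have hz0 : z3 e0 := ⟨by omega, h1⟩
  obtain ⟨hL, hZ⟩ := ih e0 (by simp only [deg, Mon.add, v3]; omega) hr0
  constructor
  · refine loc_zone lab mo v3 e0 z3 hr0 rfl (by decide) hst (fun f _ a b c => core3 f a b c)
      ?_ ?_ (Or.inl rfl) (Or.inl rfl) (Or.inr (by omega)) (Or.inl rfl) ih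
    · intro f hf
      rcases near_off hf with h | h | h | h | h | h | h | h | h | h | h | h | h <;>
      simp only [Off] at h <;>
      simp only [Red, Mon.add, v3] <;> omega
    · intro f hf hrf
      rcases near_off hf with h | h | h | h | h | h | h | h | h | h | h | h | h <;>
      simp only [Off] at h <;>
      simp only [Red, z3] at * <;> omega
  · have hl : lab (e0.add v3) = lab e0 := (hst e0 hr0 hz0).1
    have hR := hL.range
    refine ⟨?_, ?_, ?_, ?_, ?_⟩
    · intro hz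
      exfalso
      simp only [zE, Mon.add, v3] at *; omega
    · intro hz
      rw [hl]
      apply hZ.okD
      simp only [zD, Mon.add, v3] at *; omega
    · intro hz
      rw [hl]
      have hz' : z2 e0 := by simp only [z2, Mon.add, v3] at *; omega
      rcases hZ.ok2 hz' with h | ⟨c, hc, hn⟩
      · exact Or.inl h
      · refine Or.inr ⟨c, hc, ?_⟩
        rw [hc] at hR
        simp only [isTopA, inRange, up, dn, deg, Mon.add, v3] at *
        omega
    · intro hz
      rw [hl]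
      rcases hZ.ok3 hz0 with h | ⟨c, hc, hn⟩
      · exact Or.inl h
      · refine Or.inr ⟨c, hc, ?_⟩
        rw [hc] at hR
        simp only [isBotA, inRange, up, dn, deg, Mon.add, v3] at *
        omega
    · intro hz
      exfalso
      simp only [zS, Mon.add, v3] at *; omega

theorem caseE (hi : Inv (fun e => (lab e, mo e))) (e0 : Mon)
    (h3 : (5 * e0.e5 + 5 - e0.e2) + e0.e3 + 26 ≤ 3 * e0.e1)
    (hr : Red 2 2 (e0.add vE))
    (ih : ∀ f, deg f < deg (e0.add vE) → Red 2 2 f → Loc lab mo f ∧ ZoneOK lab f) :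
    Loc lab mo (e0.add vE) ∧ ZoneOK lab (e0.add vE) := by
  have hr0 : Red 2 2 e0 := by simp only [Red, Mon.add, vE] at *; omega
  have hst : ∀ f, Red 2 2 f → zE f → lab (f.add vE) = lab f ∧ mo (f.add vE) = mo f :=
    fun f a b => Prod.mk.inj (hi.invE f a b)
  have hz0 : zE e0 := by simp only [zE]; omega
  obtain ⟨hL, hZ⟩ := ih e0 (by simp only [deg, Mon.add, vE]; omega) hr0
  constructor
  · refine loc_zone lab mo vE e0 zE hr0 rfl (by decide) hst (fun f _ a b c => coreE f a b c)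
      ?_ ?_ (Or.inr (by omega)) (Or.inl rfl) (Or.inl rfl) (Or.inl rfl) ih
    · intro f hf
      rcases near_off hf with h | h | h | h | h | h | h | h | h | h | h | h | h <;>
      simp only [Off] at h <;>
      simp only [Red, Mon.add, vE] <;> omega
    · intro f hf hrf
      rcases near_off hf with h | h | h | h | h | h | h | h | h | h | h | h | h <;>
      simp only [Off] at h <;>
      simp only [Red, zE] at * <;> omega
  · have hl : lab (e0.add vE) = lab e0 := (hst e0 hr0 hz0).1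
    obtain ⟨j, hj⟩ := hZ.okE hz0
    rw [hj] at hl
    refine ⟨fun _ => ⟨j, hl⟩, ?_, fun _ => Or.inl ⟨j, hl⟩, ?_, ?_⟩
    · intro hz
      exfalso
      simp only [zD, Mon.add, vE] at *; omega
    · intro hz
      exfalso
      simp only [z3, Mon.add, vE] at *; omega
    · intro _ c hc
      rw [hl] at hc
      exact LLab.noConfusion hc

theorem caseD (hi : Inv (fun e => (lab e, mo e))) (e0 : Mon)
    (h3 : (3 * e0.e1 + 3 - e0.e3) + e0.e2 + 20 ≤ 5 * e0.e5)
    (hr : Red 2 2 (e0.add vD))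
    (ih : ∀ f, deg f < deg (e0.add vD) → Red 2 2 f → Loc lab mo f ∧ ZoneOK lab f) :
    Loc lab mo (e0.add vD) ∧ ZoneOK lab (e0.add vD) := by
  have hr0 : Red 2 2 e0 := by simp only [Red, Mon.add, vD] at *; omega
  have hst : ∀ f, Red 2 2 f → zD f → lab (f.add vD) = lab f ∧ mo (f.add vD) = mo f :=
    fun f a b => Prod.mk.inj (hi.invD f a b)
  have hz0 : zD e0 := by simp only [zD]; omega
  obtain ⟨hL, hZ⟩ := ih e0 (by simp only [deg, Mon.add, vD]; omega) hr0
  constructor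
  · refine loc_zone lab mo vD e0 zD hr0 rfl (by decide) hst (fun f _ a b c => coreD f a b c)
      ?_ ?_ (Or.inl rfl) (Or.inl rfl) (Or.inl rfl) (Or.inr (by omega)) ih
    · intro f hf
      rcases near_off hf with h | h | h | h | h | h | h | h | h | h | h | h | h <;>
      simp only [Off] at h <;>
      simp only [Red, Mon.add, vD] <;> omega
    · intro f hf hrf
      rcases near_off hf with h | h | h | h | h | h | h | h | h | h | h | h | h <;>
      simp only [Off] at h <;>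
      simp only [Red, zD] at * <;> omega
  · have hl : lab (e0.add vD) = lab e0 := (hst e0 hr0 hz0).1
    obtain ⟨j, hj⟩ := hZ.okD hz0
    rw [hj] at hl
    refine ⟨?_, fun _ => ⟨j, hl⟩, ?_, fun _ => Or.inl ⟨j, hl⟩, ?_⟩
    · intro hz
      exfalso
      simp only [zE, Mon.add, vD] at *; omega
    · intro hz
      exfalso
      simp only [z2, Mon.add, vD] at *; omega
    · intro _ c hc
      rw [hl] at hc
      exact LLab.noConfusion hc

theorem caseS (hi : Inv (fun e => (lab e, mo e))) (e0 : Mon)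
    (h1 : 5 * 4 + 1 ≤ e0.e1) (h5 : 3 * 4 + 1 ≤ e0.e5)
    (hr : Red 2 2 (e0.add vS))
    (ih : ∀ f, deg f < deg (e0.add vS) → Red 2 2 f → Loc lab mo f ∧ ZoneOK lab f) :
    Loc lab mo (e0.add vS) ∧ ZoneOK lab (e0.add vS) := by
  have hr0 : Red 2 2 e0 := by simp only [Red, Mon.add, vS] at *; omega
  have hst : ∀ f, Red 2 2 f → zS f → lab (f.add vS) = lab f ∧ mo (f.add vS) = mo f :=
    fun f a b => Prod.mk.inj (hi.invS f a b)
  have hz0 : zS e0 := by simp only [zS]; omega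
  obtain ⟨hL, hZ⟩ := ih e0 (by simp only [deg, Mon.add, vS]; omega) hr0
  constructor
  · refine loc_zone lab mo vS e0 zS hr0 rfl (by decide) hst (fun f _ a b c => coreS f a b c)
      ?_ ?_ (Or.inr (by omega)) (Or.inl rfl) (Or.inl rfl) (Or.inr (by omega)) ih
    · intro f hf
      rcases near_off hf with h | h | h | h | h | h | h | h | h | h | h | h | h <;>
      simp only [Off] at h <;>
      simp only [Red, Mon.add, vS] <;> omega
    · intro f hf hrf
      rcases near_off hf with h | h | h | h | h | h | h | h | h | h | h | h | h <;>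
      simp only [Off] at h <;>
      simp only [Red, zS] at * <;> omega
  · have hl : lab (e0.add vS) = lab e0 := (hst e0 hr0 hz0).1
    refine ⟨?_, ?_, ?_, ?_, ?_⟩
    · intro hz
      rw [hl]
      apply hZ.okE
      simp only [Red, zE, Mon.add, vS] at *; omega
    · intro hz
      rw [hl]
      apply hZ.okD
      simp only [Red, zD, Mon.add, vS] at *; omega
    · intro hz
      exfalso
      simp only [z2, Mon.add, vS] at *; omega
    · intro hz
      exfalso
      simp only [z3, Mon.add, vS] at *; omega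
    · intro _ c
      rw [hl]
      exact hZ.okS hz0 c

theorem loc_of_window (lab : Mon → LLab) (mo : Mon → ℕ) (hi : Inv (fun e => (lab e, mo e)))
    (h : ∀ e, Red 2 2 e → InOm e → Loc lab mo e ∧ ZoneOK lab e) :
    ∀ e, Red 2 2 e → Loc lab mo e ∧ ZoneOK lab e := by
  have key : ∀ n : ℕ, ∀ e, deg e = n → Red 2 2 e → Loc lab mo e ∧ ZoneOK lab e := by
    intro n
    induction n using Nat.strong_induction_on with
    | _ n ih =>
    intro e hd hr
    have ih' : ∀ f, deg f < deg e → Red 2 2 f → Loc lab mo f ∧ ZoneOK lab f :=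
      fun f hf hrf => ih (deg f) (hd ▸ hf) f rfl hrf
    by_cases ho : InOm e
    · exact h e hr ho
    by_cases c2 : 17 ≤ e.e2
    · have he : e = (⟨e.e1, e.e2 - 1, e.e3, e.e4, e.e5⟩ : Mon).add v2 := by
        obtain ⟨a1, a2, a3, a4, a5⟩ := e
        simp only [Mon.add, v2, Mon.mk.injEq] at *; omega
      have h0 : 16 ≤ (⟨e.e1, e.e2 - 1, e.e3, e.e4, e.e5⟩ : Mon).e2 := by dsimp only; omega
      revert h0
      generalize (⟨e.e1, e.e2 - 1, e.e3, e.e4, e.e5⟩ : Mon) = e0 at he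
      intro h0
      subst he
      exact case2 hi e0 h0 hr ih'
    by_cases c3 : 15 ≤ e.e3
    · have he : e = (⟨e.e1, e.e2, e.e3 - 1, e.e4, e.e5⟩ : Mon).add v3 := by
        obtain ⟨a1, a2, a3, a4, a5⟩ := e
        simp only [Mon.add, v3, Mon.mk.injEq] at *; omega
      have h0 : 14 ≤ (⟨e.e1, e.e2, e.e3 - 1, e.e4, e.e5⟩ : Mon).e3 := by dsimp only; omega
      revert h0
      generalize (⟨e.e1, e.e2, e.e3 - 1, e.e4, e.e5⟩ : Mon) = e0 at he
      intro h0
      subst he
      exact case3 hi e0 h0 hr ih'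
    by_cases cE : (5 * e.e5 + 5 - e.e2) + e.e3 + 32 ≤ 3 * e.e1
    · have he : e = (⟨e.e1 - 2, e.e2, e.e3, e.e4, e.e5⟩ : Mon).add vE := by
        obtain ⟨a1, a2, a3, a4, a5⟩ := e
        simp only [Mon.add, vE, Mon.mk.injEq] at *; omega
      have h0 : (5 * (⟨e.e1 - 2, e.e2, e.e3, e.e4, e.e5⟩ : Mon).e5 + 5 -
          (⟨e.e1 - 2, e.e2, e.e3, e.e4, e.e5⟩ : Mon).e2) +
          (⟨e.e1 - 2, e.e2, e.e3, e.e4, e.e5⟩ : Mon).e3 + 26 ≤
          3 * (⟨e.e1 - 2, e.e2, e.e3, e.e4, e.e5⟩ : Mon).e1 := by dsimp only; omega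
      revert h0
      generalize (⟨e.e1 - 2, e.e2, e.e3, e.e4, e.e5⟩ : Mon) = e0 at he
      intro h0
      subst he
      exact caseE hi e0 h0 hr ih'
    by_cases cD : (3 * e.e1 + 3 - e.e3) + e.e2 + 25 ≤ 5 * e.e5
    · have he : e = (⟨e.e1, e.e2, e.e3, e.e4, e.e5 - 1⟩ : Mon).add vD := by
        obtain ⟨a1, a2, a3, a4, a5⟩ := e
        simp only [Mon.add, vD, Mon.mk.injEq] at *; omega
      have h0 : (3 * (⟨e.e1, e.e2, e.e3, e.e4, e.e5 - 1⟩ : Mon).e1 + 3 -
          (⟨e.e1, e.e2, e.e3, e.e4, e.e5 - 1⟩ : Mon).e3) +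
          (⟨e.e1, e.e2, e.e3, e.e4, e.e5 - 1⟩ : Mon).e2 + 20 ≤
          5 * (⟨e.e1, e.e2, e.e3, e.e4, e.e5 - 1⟩ : Mon).e5 := by dsimp only; omega
      revert h0
      generalize (⟨e.e1, e.e2, e.e3, e.e4, e.e5 - 1⟩ : Mon) = e0 at he
      intro h0
      subst he
      exact caseD hi e0 h0 hr ih'
    have cS : 5 * (4 + 6) + 1 ≤ e.e1 ∧ 3 * (4 + 6) + 1 ≤ e.e5 := by
      simp only [InOm] at ho; omega
    have he : e = (⟨e.e1 - 5 * 6, e.e2, e.e3, e.e4, e.e5 - 3 * 6⟩ : Mon).add vS := by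
      obtain ⟨a1, a2, a3, a4, a5⟩ := e
      simp only [Mon.add, vS, Mon.mk.injEq] at *; omega
    have h0 : 5 * 4 + 1 ≤ (⟨e.e1 - 5 * 6, e.e2, e.e3, e.e4, e.e5 - 3 * 6⟩ : Mon).e1 := by
      dsimp only; omega
    have h0' : 3 * 4 + 1 ≤ (⟨e.e1 - 5 * 6, e.e2, e.e3, e.e4, e.e5 - 3 * 6⟩ : Mon).e5 := by
      dsimp only; omega
    revert h0 h0'
    generalize (⟨e.e1 - 5 * 6, e.e2, e.e3, e.e4, e.e5 - 3 * 6⟩ : Mon) = e0 at he
    intro h0 h0'
    subst he
    exact caseS hi e0 h0 h0' hr ih'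
  intro e hr
  exact key _ e rfl hr

end Pool.LS
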